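import Mathlib
import Pool.Agent.TH905.PC.Dsg

set_option autoImplicit false

/-!
# Permutation characters of automorphism groups of symmetric designs with almost all block sizes

Let `lam ≥ 2` and `M ≥ 1`.  For all `k` outside a set of natural density zero, every symmetric
`2-(v, k, lam)` design has the following property.  Let `H` be a group of automorphisms whose order
has only prime divisors of `M`.  For a linear character `χ` of `H` let `m χ` be the number of the
orbits of `H` on the points on which the stabilizers lie in the kernel of `χ` (this number is the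
multiplicity of `χ` in the permutation character).  If `χ ^ M = 1` then `m χ` is even for `χ ≠ 1` and
odd for `χ = 1`.  If `χ` is real then `m χ` is `0` modulo `4` for `χ ≠ 1` and `1` modulo `4` for
`χ = 1`, and the product of the lengths of these orbits is a square.
-/

open Filter Topology

namespace Pool.Agent.Results.MP_c38931_co.PermutationCharacters

/-- The blocks `B i` (`i : Fin v`) form a symmetric `2-(v, k, lam)` design on the points `Fin v`
with `2 ≤ k < v`. -/
structure IsSymmetricDesign (v k lam : ℕ) (B : Fin v → Finset (Fin v)) : Prop where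
  two_le : 2 ≤ k
  lt : k < v
  size : ∀ i, (B i).card = k
  pair : ∀ x y : Fin v, x ≠ y →
    (Finset.univ.filter (fun i => x ∈ B i ∧ y ∈ B i)).card = lam

/-- the orbits of `H` on the points on which the stabilizers of the points lie in the kernel
of `χ` -/
def orbs {v : ℕ} (H : Subgroup (Equiv.Perm (Fin v))) (χ : H →* ℂˣ) : Set (Set (Fin v)) :=
  {O | ∃ x : Fin v, O = MulAction.orbit H x ∧ ∀ y ∈ O, ∀ h : H, h • y = y → χ h = 1}

open Classical in
/-- the property of the block sizes `k`, for given `lam` and `M` -/
def Good (lam M k : ℕ) : Prop :=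
  ∀ (v : ℕ) (B : Fin v → Finset (Fin v)) (H : Subgroup (Equiv.Perm (Fin v))),
    IsSymmetricDesign v k lam B → (∀ h ∈ H, ∀ i, ∃ j, (B i).image h = B j) →
      (∀ q : ℕ, q.Prime → q ∣ Nat.card H → q ∣ M) →
      ∀ χ : H →* ℂˣ, (χ ^ M = 1 → (orbs H χ).ncard % 2 = (if χ = 1 then 1 else 0)) ∧
        (χ ^ 2 = 1 → (orbs H χ).ncard % 4 = (if χ = 1 then 1 else 0) ∧
          IsSquare (∏ᶠ O ∈ orbs H χ, O.ncard))

/-- The integers `k` without the property have natural density zero. -/
theorem result (lam M : ℕ) (hlam : 2 ≤ lam) (hM : 0 < M) :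
    Tendsto (fun X : ℕ => (({k : ℕ | k ≤ X ∧ ¬ Good lam M k}.ncard : ℕ) : ℝ) / X)
      atTop (𝓝 0) := by
  have h : Pool.Agent.TH905.PC.Negl (fun k => ¬ Good lam M k) := by
    refine Pool.Agent.TH905.PC.Negl.mono ?_
      ((Pool.Agent.TH905.PC.ar_negl (M * lam) (mul_ne_zero hM.ne' (by omega))).shift lam)
    intro k hk
    simp only [Good, not_forall] at hk
    obtain ⟨v, B, H, hB, haut, hH, χ, hχ⟩ := hk
    have hv : 2 ≤ v := by
      have h1 := hB.two_le
      have h2 := hB.lt
      omega
    obtain ⟨hlk, -, -⟩ := Pool.Agent.H951R4.OD.design_facts hv (by omega : 1 ≤ lam) hB.lt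
      hB.size hB.pair
    refine ⟨hlk.le, by omega, fun har => hχ ?_⟩
    exact Pool.Agent.TH905.PC.design_main hv (by omega) hB.lt hB.size hB.pair haut hM.ne' hH
      har χ rfl
  rw [Metric.tendsto_nhds]
  intro ε hε
  filter_upwards [h (ε / 2) (by positivity), eventually_gt_atTop 0] with X h1 h2
  have hX : (0 : ℝ) < X := by exact_mod_cast h2
  rw [Real.dist_eq, sub_zero, abs_of_nonneg (by positivity), div_lt_iff₀ hX]
  have : 0 < ε / 2 * X := by positivity
  linarith

end Pool.Agent.Results.MP_c38931_co.PermutationCharacters
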