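import Mathlib
import Pool.Agent.TH66.HF.Mn
import Pool.Agent.TH66.HF.Reg

set_option autoImplicit false

namespace Pool.Agent.Results.MP_c38931_co.PrimeFactorsRegular

open Filter Topology

/-- The blocks `B i` (`i : Fin v`) form a symmetric `2-(v, k, lam)` design on the points `Fin v`
with `2 ≤ k < v`, and `H` is a group of automorphisms of the design acting regularly (sharply
transitively) on the points. -/
structure IsRegularSymmetricDesign (v k lam : ℕ) (B : Fin v → Finset (Fin v))
    (H : Subgroup (Equiv.Perm (Fin v))) : Prop where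
  two_le : 2 ≤ k
  lt : k < v
  size : ∀ i, (B i).card = k
  pair : ∀ x y : Fin v, x ≠ y →
    (Finset.univ.filter (fun i => x ∈ B i ∧ y ∈ B i)).card = lam
  regular : ∀ x y : Fin v, ∃! h : Equiv.Perm (Fin v), h ∈ H ∧ h x = y
  aut : ∀ h ∈ H, ∀ i, ∃ j, (B i).image h = B j

/-- `n` is the order `k - lam` of a symmetric `2-(v, k, lam)` design (`v` arbitrary) with a group of
automorphisms acting regularly on the points. -/
def IsRegularOrder (lam n : ℕ) : Prop :=
  ∃ (v : ℕ) (B : Fin v → Finset (Fin v)) (H : Subgroup (Equiv.Perm (Fin v))),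
    IsRegularSymmetricDesign v (n + lam) lam B H

/-- The same with a nilpotent (for instance abelian) group. -/
def IsNilpotentRegularOrder (lam n : ℕ) : Prop :=
  ∃ (v : ℕ) (B : Fin v → Finset (Fin v)) (H : Subgroup (Equiv.Perm (Fin v))),
    IsRegularSymmetricDesign v (n + lam) lam B H ∧ Group.IsNilpotent H

/-- Let `lam ≥ 2` and `j ≥ 1`. Among the integers `N ≤ X` with exactly `j` prime factors (counted with
multiplicity; for `j = 1`: among the primes), the proportion of those for which
* `N` is the order of a symmetric `2-(v, k, lam)` design with a regular group of automorphisms, or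
* `N ^ 2` is the order of a symmetric `2-(v, k, lam)` design with a nilpotent regular group of
  automorphisms,
tends to `0` as `X → ∞`. -/
theorem result (lam j : ℕ) (hlam : 2 ≤ lam) (hj : 1 ≤ j) :
    Tendsto (fun X : ℕ =>
      ({N : ℕ | N ≤ X ∧ N.primeFactorsList.length = j ∧
          (IsRegularOrder lam N ∨ IsNilpotentRegularOrder lam (N ^ 2))}.ncard : ℝ) /
        ({N : ℕ | N ≤ X ∧ N.primeFactorsList.length = j}.ncard : ℝ)) atTop (𝓝 0) := by
  have h1 := Pool.Agent.TH66.HF.main1 lam j hlam hj
  have h2 := Pool.Agent.TH66.HF.main2 lam j hlam hj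
  have h3 := h1.add h2
  rw [add_zero] at h3
  refine squeeze_zero (fun X => by positivity) (fun X => ?_) h3
  rw [← add_div]
  apply div_le_div_of_nonneg_right _ (Nat.cast_nonneg _)
  have hfin : ∀ P : ℕ → Prop, ({N : ℕ | N ≤ X ∧ N.primeFactorsList.length = j ∧ P N} : Set ℕ).Finite :=
    fun P => (Set.finite_Iic X).subset fun N hN => hN.1
  have hsub : ({N : ℕ | N ≤ X ∧ N.primeFactorsList.length = j ∧
          (IsRegularOrder lam N ∨ IsNilpotentRegularOrder lam (N ^ 2))} : Set ℕ) ⊆
      {N : ℕ | N ≤ X ∧ N.primeFactorsList.length = j ∧ Pool.Agent.TH66.HF.HasDS False lam N} ∪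
      {N : ℕ | N ≤ X ∧ N.primeFactorsList.length = j ∧
        Pool.Agent.TH66.HF.HasDS True lam (N ^ 2)} := by
    rintro N ⟨hN, hl, h | h⟩
    · left
      obtain ⟨v, B, H, h⟩ := h
      have hv : 2 ≤ v := h.two_le.trans h.lt.le
      obtain ⟨-, G, i1, i2, i3, D, -, h5, h6⟩ := Pool.Agent.TH66.HF.regdesign_ds'
        (v := v) (k := N + lam) (lam := lam) (B := B) (H := H)
        ⟨h.lt, h.size, h.pair, h.regular, h.aut⟩ (by omega) hv
      exact ⟨hN, hl, G, i1, i2, i3, D, fun h => h.elim, h5, h6⟩
    · right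
      obtain ⟨v, B, H, h, hnil⟩ := h
      have hv : 2 ≤ v := h.two_le.trans h.lt.le
      obtain ⟨-, G, i1, i2, i3, D, h4, h5, h6⟩ := Pool.Agent.TH66.HF.regdesign_ds'
        (v := v) (k := N ^ 2 + lam) (lam := lam) (B := B) (H := H)
        ⟨h.lt, h.size, h.pair, h.regular, h.aut⟩ (by omega) hv
      exact ⟨hN, hl, G, i1, i2, i3, D, fun _ => h4 hnil, h5, h6⟩
  have h4 := (Set.ncard_le_ncard hsub ((hfin _).union (hfin _))).trans (Set.ncard_union_le _ _)
  exact_mod_cast h4

end Pool.Agent.Results.MP_c38931_co.PrimeFactorsRegular
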