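import Mathlib
import Pool.Agent.TH66.HF.Mt

set_option autoImplicit false

namespace Pool.Agent.Results.MP_c38931_co.PrimeFactorsSolvable

open Filter Topology

/-- The blocks `B i` (`i : Fin v`) form a symmetric `2-(v, k, lam)` design on the points `Fin v`
with `2 ≤ k < v`, and `H` is a solvable group of automorphisms of the design acting transitively
on the points. -/
structure IsSolvableTransitiveDesign (v k lam : ℕ) (B : Fin v → Finset (Fin v))
    (H : Subgroup (Equiv.Perm (Fin v))) : Prop where
  two_le : 2 ≤ k
  lt : k < v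
  size : ∀ i, (B i).card = k
  pair : ∀ x y : Fin v, x ≠ y →
    (Finset.univ.filter (fun i => x ∈ B i ∧ y ∈ B i)).card = lam
  transitive : ∀ x y : Fin v, ∃ h ∈ H, h x = y
  aut : ∀ h ∈ H, ∀ i, ∃ j, (B i).image h = B j
  solvable : Group.IsSolvable H

/-- `n` is the order `k - lam` of a symmetric `2-(v, k, lam)` design (`v` arbitrary) with a solvable
group of automorphisms that is transitive on the points. -/
def IsSolvableTransitiveOrder (lam n : ℕ) : Prop :=
  ∃ (v : ℕ) (B : Fin v → Finset (Fin v)) (H : Subgroup (Equiv.Perm (Fin v))),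
    IsSolvableTransitiveDesign v (n + lam) lam B H

/-- Let `lam ≥ 2` and `j ≥ 1`. Among the integers `N ≤ X` with exactly `j` prime factors (counted with
multiplicity; for `j = 1`: among the primes), the proportion of those that are the order `k - lam` of
a symmetric `2-(v, k, lam)` design with a solvable point-transitive group of automorphisms tends to
`0` as `X → ∞`. -/
theorem result (lam j : ℕ) (hlam : 2 ≤ lam) (hj : 1 ≤ j) :
    Tendsto (fun X : ℕ =>
      ({N : ℕ | N ≤ X ∧ N.primeFactorsList.length = j ∧
          IsSolvableTransitiveOrder lam N}.ncard : ℝ) /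
        ({N : ℕ | N ≤ X ∧ N.primeFactorsList.length = j}.ncard : ℝ)) atTop (𝓝 0) := by
  refine squeeze_zero (fun X => by positivity) (fun X => ?_)
    (Pool.Agent.TH66.HF.main3 lam j hlam hj)
  apply div_le_div_of_nonneg_right _ (Nat.cast_nonneg _)
  have hsub : ({N : ℕ | N ≤ X ∧ N.primeFactorsList.length = j ∧
          IsSolvableTransitiveOrder lam N} : Set ℕ) ⊆
      {N : ℕ | N ≤ X ∧ N.primeFactorsList.length = j ∧ Pool.Agent.TH66.HF.HasTrans lam N} := by
    rintro N ⟨hN, hl, v, B, H, h⟩
    exact ⟨hN, hl, v, B, H, h.two_le.trans h.lt.le,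
      ⟨h.lt, h.size, h.pair, h.transitive, h.aut, h.solvable⟩⟩
  exact_mod_cast Set.ncard_le_ncard hsub ((Set.finite_Iic X).subset fun N hN => hN.1)

end Pool.Agent.Results.MP_c38931_co.PrimeFactorsSolvable
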