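import Pool.Agent.TH454.BW.SingerPlane

/-!
# Decision diagrams of symmetric designs

The points and the blocks of a symmetric `2-(v, k, lam)` design are named by strings of `m` bits,
`v ≤ 2 ^ m ≤ 2 v`, in any way. An ordered binary decision diagram with `w` nodes at each level reads
the `2 m` bits of the names of a point and of a block, in any fixed order, and decides whether they
are incident. Then `k ≤ 4 lam² w m` and `2 ^ m ≤ (8 lam² w m)²`: for every fixed `lam` symmetric
designs need `v ^ (1 / 2 - o(1))` nodes. The planes over the prime fields need at most `48 p + 60`.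
-/

set_option autoImplicit false

namespace Pool.Agent.Results.MP_c38931_co.WidthSquareRoot

open Pool.Agent.H607R2.BW Pool.Agent.TH454.BW

/-- the incidence relation between the names `x 0` of the points and `x 1` of the blocks -/
def Inc {v m : ℕ} (B : Fin v → Finset (Fin v)) (p b : Fin v → Str m) : (Fin 2 → Str m) → Prop :=
  fun x => ∃ i j, i ∈ B j ∧ x 0 = p i ∧ x 1 = b j

theorem result :
    -- (1) nondeterministic decision diagrams with at most `β` edges at each level
    (∀ (lam m β v k : ℕ) (B : Fin v → Finset (Fin v)) (p b : Fin v → Str m), 1 ≤ lam → 1 ≤ m →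
      (∀ i, (B i).card = k) →
      (∀ x y : Fin v, x ≠ y →
        (Finset.univ.filter (fun i => x ∈ B i ∧ y ∈ B i)).card ≤ lam) →
      Function.Injective p → Function.Injective b → HasNObdd β (Inc B p b) →
      v * k ≤ lam ^ 2 * (β * m * 2 ^ m)) ∧
    -- (2) symmetric designs and decision diagrams with `w` nodes at each level
    (∀ (lam m w v k : ℕ) (B : Fin v → Finset (Fin v)) (p b : Fin v → Str m), 1 ≤ lam → 2 ≤ v →
      2 ^ m ≤ 2 * v → (∀ i, (B i).card = k) →
      (∀ x y : Fin v, x ≠ y →
        (Finset.univ.filter (fun i => x ∈ B i ∧ y ∈ B i)).card = lam) →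
      Function.Injective p → Function.Injective b → ObddWidth w (Inc B p b) →
      k ≤ 4 * lam ^ 2 * w * m ∧ 2 ^ m ≤ (8 * lam ^ 2 * w * m) ^ 2) ∧
    -- (3) every exponent below `1 / 2`
    (∀ (lam : ℕ) (c : ℝ), 1 ≤ lam → c < 1 / 2 →
      ∃ m₀ : ℕ, ∀ (m w v k : ℕ) (B : Fin v → Finset (Fin v)) (p b : Fin v → Str m),
        m₀ ≤ m → 2 ^ m ≤ 2 * v → (∀ i, (B i).card = k) →
        (∀ x y : Fin v, x ≠ y →
          (Finset.univ.filter (fun i => x ∈ B i ∧ y ∈ B i)).card = lam) →
        Function.Injective p → Function.Injective b → ObddWidth w (Inc B p b) →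
        ((2 : ℝ) ^ m) ^ c < w) ∧
    -- (4) the exponent `1 / 2` is attained for `lam = 1`
    (∀ p m : ℕ, p.Prime → p ^ 2 + p + 1 < 2 ^ m →
      ∃ (B : Fin (p ^ 2 + p + 1) → Finset (Fin (p ^ 2 + p + 1)))
        (pt bl : Fin (p ^ 2 + p + 1) → Str m),
        (∀ i, (B i).card = p + 1) ∧
        (∀ x y, x ≠ y → (Finset.univ.filter (fun i => x ∈ B i ∧ y ∈ B i)).card = 1) ∧
        Function.Injective pt ∧ Function.Injective bl ∧
        HasWidth (16 * p + 20) (Inc B pt bl) ∧ ObddWidth (48 * p + 60) (Inc B pt bl)) := by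
  refine ⟨?_, ?_, ?_, ?_⟩
  · intro lam m β v k B p b hl hm hk hlam hp hb hw
    exact design_bound lam m β v k B p b hl hm hk hlam hp hb hw
  · intro lam m w v k B p b hl hv hvm hk hlam hp hb hw
    exact design_width lam m w v k B p b hl hv hvm hk hlam hp hb hw
  · intro lam c hl hc
    exact design_asy lam c hl hc
  · intro p m hp hm
    have : Fact p.Prime := ⟨hp⟩
    obtain ⟨B, pt, bl, h1, h2, h3, h4, h5⟩ := plane_width p m hm
    refine ⟨B, pt, bl, h1, h2, h3, h4, h5, ?_⟩
    have h6 := obdd_of_width h5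
    have e : 3 * (16 * p + 20) = 48 * p + 60 := by ring
    rw [e] at h6
    exact h6

end Pool.Agent.Results.MP_c38931_co.WidthSquareRoot
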